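import Pool.Agent.helper33.CK.C3
import Pool.Agent.helper33.CK.C1
import Pool.Agent.helper49.CK.W

/-! # CK project, module N1: a projection near the pure functional -/

namespace Pool.Agent.helper32.CK

open scoped InnerProductSpace ComplexOrder
open Filter Topology

universe u v w

set_option linter.unusedSectionVars false

section N1

variable {A : Type u} [NonUnitalCStarAlgebra A] {H : Type v} [NormedAddCommGroup H]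
  [InnerProductSpace ℂ H] [CompleteSpace H] {σ : A →⋆ₙₐ[ℂ] (H →L[ℂ] H)}

/-- representations are contractive -/
theorem N1_norm_le (σ : A →⋆ₙₐ[ℂ] (H →L[ℂ] H)) (a : A) : ‖σ a‖ ≤ ‖a‖ :=
  NonUnitalStarAlgHom.norm_apply_le σ a

/-- `σ(a)` acts by `⟪σ(a)v, w⟫ = ⟪v, σ(a*)w⟫`. -/
theorem N1_inner_left (σ : A →⋆ₙₐ[ℂ] (H →L[ℂ] H)) (a : A) (v w : H) :
    ⟪σ a v, w⟫_ℂ = ⟪v, σ (star a) w⟫_ℂ := by
  rw [map_star, ContinuousLinearMap.star_eq_adjoint, ContinuousLinearMap.adjoint_inner_right]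

/-- positive elements act by positive operators -/
theorem N1_pos [PartialOrder A] [StarOrderedRing A] (σ : A →⋆ₙₐ[ℂ] (H →L[ℂ] H)) (z : A)
    (hz : 0 ≤ z) (v : H) : 0 ≤ (⟪v, σ z v⟫_ℂ).re := by
  have h1 : 0 ≤ σ z := map_nonneg σ hz
  rw [ContinuousLinearMap.nonneg_iff_isPositive] at h1
  have h2 := h1.re_inner_nonneg_right v
  simpa using h2

theorem N1_le_one (T : H →L[ℂ] H) (hT : ‖T‖ ≤ 1) (v : H) : ‖T v‖ ≤ ‖v‖ := by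
  calc ‖T v‖ ≤ ‖T‖ * ‖v‖ := T.le_opNorm v
    _ ≤ 1 * ‖v‖ := mul_le_mul_of_nonneg_right hT (norm_nonneg _)
    _ = ‖v‖ := one_mul _

theorem N1_mul_le_one {a b : A} (ha : ‖a‖ ≤ 1) (hb : ‖b‖ ≤ 1) : ‖a * b‖ ≤ 1 := by
  calc ‖a * b‖ ≤ ‖a‖ * ‖b‖ := norm_mul_le a b
    _ ≤ 1 * 1 := mul_le_mul ha hb (norm_nonneg _) zero_le_one
    _ = 1 := one_mul _

variable {H' : Type w} [NormedAddCommGroup H'] [InnerProductSpace ℂ H'] [CompleteSpace H']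

theorem N1_inner (x0 : H) (θ : A → (H' →L[ℂ] H')) (ξ : H') (hξ : ‖ξ‖ = 1) (s : ℝ)
    (hθ : ApproxHom (s ^ 2) θ)
    (hnear : ∀ a, ‖a‖ ≤ 1 → ‖⟪x0, σ a x0⟫_ℂ - ⟪ξ, θ a ξ⟫_ℂ‖ ≤ s ^ 2) (a y : A)
    (ha : ‖a‖ ≤ 1) (hy : ‖y‖ ≤ 1) :
    ‖⟪x0, σ a (σ y x0)⟫_ℂ - ⟪ξ, θ a (θ y ξ)⟫_ℂ‖ ≤ 2 * s ^ 2 := by
  have h1 := hnear (a * y) (N1_mul_le_one ha hy)
  have h2 : ‖⟪ξ, θ (a * y) ξ⟫_ℂ - ⟪ξ, θ a (θ y ξ)⟫_ℂ‖ ≤ s ^ 2 := by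
    rw [← inner_sub_right]
    have h3 : θ (a * y) ξ - θ a (θ y ξ) = (θ (a * y) - θ a * θ y) ξ := by
      simp
    rw [h3]
    calc ‖⟪ξ, (θ (a * y) - θ a * θ y) ξ⟫_ℂ‖ ≤ ‖ξ‖ * ‖(θ (a * y) - θ a * θ y) ξ‖ :=
          norm_inner_le_norm _ _
      _ ≤ 1 * (‖θ (a * y) - θ a * θ y‖ * ‖ξ‖) := by
          rw [hξ]
          exact mul_le_mul_of_nonneg_left (by
            have := (θ (a * y) - θ a * θ y).le_opNorm ξ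
            rwa [hξ] at this) zero_le_one
      _ ≤ s ^ 2 := by rw [hξ, one_mul, mul_one]; exact hθ.mul a y ha hy
  have h4 : σ a (σ y x0) = σ (a * y) x0 := by rw [map_mul]; rfl
  rw [h4]
  calc ‖⟪x0, σ (a * y) x0⟫_ℂ - ⟪ξ, θ a (θ y ξ)⟫_ℂ‖
      = ‖(⟪x0, σ (a * y) x0⟫_ℂ - ⟪ξ, θ (a * y) ξ⟫_ℂ) +
        (⟪ξ, θ (a * y) ξ⟫_ℂ - ⟪ξ, θ a (θ y ξ)⟫_ℂ)‖ := by congr 1; ring
    _ ≤ s ^ 2 + s ^ 2 := (norm_add_le _ _).trans (add_le_add h1 h2)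
    _ = 2 * s ^ 2 := by ring

theorem N1_sq (x0 : H) (θ : A → (H' →L[ℂ] H')) (ξ : H') (hξ : ‖ξ‖ = 1) (s : ℝ)
    (hθ : ApproxHom (s ^ 2) θ)
    (hnear : ∀ a, ‖a‖ ≤ 1 → ‖⟪x0, σ a x0⟫_ℂ - ⟪ξ, θ a ξ⟫_ℂ‖ ≤ s ^ 2) (a y : A)
    (ha : ‖a‖ ≤ 1) (hy : ‖y‖ ≤ 1) :
    ‖σ a (σ y x0)‖ ^ 2 ≤ ‖θ a (θ y ξ)‖ ^ 2 + 5 * s ^ 2 := by
  have hb : ‖a * y‖ ≤ 1 := N1_mul_le_one ha hy
  have hsb : ‖star (a * y)‖ ≤ 1 := by rwa [norm_star]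
  have h1 := N1_inner x0 θ ξ hξ s hθ hnear (star (a * y)) (a * y) hsb hb
  have e1 : ⟪x0, σ (star (a * y)) (σ (a * y) x0)⟫_ℂ = ((‖σ a (σ y x0)‖ ^ 2 : ℝ) : ℂ) := by
    rw [← N1_inner_left, inner_self_eq_norm_sq_to_K, map_mul]
    simp
  have h2 : ‖⟪ξ, θ (star (a * y)) (θ (a * y) ξ)⟫_ℂ - ((‖θ (a * y) ξ‖ ^ 2 : ℝ) : ℂ)‖ ≤ s ^ 2 := by
    have e2 : ((‖θ (a * y) ξ‖ ^ 2 : ℝ) : ℂ) = ⟪ξ, star (θ (a * y)) (θ (a * y) ξ)⟫_ℂ := by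
      rw [ContinuousLinearMap.star_eq_adjoint, ContinuousLinearMap.adjoint_inner_right,
        inner_self_eq_norm_sq_to_K]
      simp
    rw [e2, ← inner_sub_right, ← sub_apply]
    calc _ ≤ ‖ξ‖ * ‖(θ (star (a * y)) - star (θ (a * y))) (θ (a * y) ξ)‖ :=
          norm_inner_le_norm _ _
      _ ≤ 1 * (‖θ (star (a * y)) - star (θ (a * y))‖ * ‖θ (a * y) ξ‖) := by
          rw [hξ]
          exact mul_le_mul_of_nonneg_left (ContinuousLinearMap.le_opNorm _ _) zero_le_one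
      _ ≤ 1 * (s ^ 2 * 1) := by
          refine mul_le_mul_of_nonneg_left (mul_le_mul (hθ.star _ hb) ?_ (norm_nonneg _)
            (sq_nonneg s)) zero_le_one
          rw [← hξ]
          exact N1_le_one _ (hθ.norm_le _ hb) ξ
      _ = s ^ 2 := by ring
  have h3 : ‖θ (a * y) ξ‖ ^ 2 ≤ ‖θ a (θ y ξ)‖ ^ 2 + 2 * s ^ 2 := by
    have h4 : ‖θ (a * y) ξ - θ a (θ y ξ)‖ ≤ s ^ 2 := by
      have h3 : θ (a * y) ξ - θ a (θ y ξ) = (θ (a * y) - θ a * θ y) ξ := by simp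
      rw [h3]
      have := (θ (a * y) - θ a * θ y).le_opNorm ξ
      rw [hξ, mul_one] at this
      exact this.trans (hθ.mul a y ha hy)
    have h5 : ‖θ (a * y) ξ‖ ≤ 1 := by
      rw [← hξ]; exact N1_le_one _ (hθ.norm_le _ hb) ξ
    have h6 : ‖θ a (θ y ξ)‖ ≤ 1 := by
      refine (N1_le_one _ (hθ.norm_le _ ha) _).trans ?_
      rw [← hξ]; exact N1_le_one _ (hθ.norm_le _ hy) ξ
    have h7 : ‖θ (a * y) ξ‖ ≤ ‖θ a (θ y ξ)‖ + s ^ 2 := by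
      have := norm_sub_norm_le (θ (a * y) ξ) (θ a (θ y ξ))
      linarith
    nlinarith [norm_nonneg (θ (a * y) ξ), norm_nonneg (θ a (θ y ξ)), sq_nonneg s]
  rw [e1] at h1
  have h8 : ‖((‖σ a (σ y x0)‖ ^ 2 : ℝ) : ℂ) - ((‖θ (a * y) ξ‖ ^ 2 : ℝ) : ℂ)‖ ≤ 3 * s ^ 2 := by
    calc _ = ‖(((‖σ a (σ y x0)‖ ^ 2 : ℝ) : ℂ) - ⟪ξ, θ (star (a * y)) (θ (a * y) ξ)⟫_ℂ) +
          (⟪ξ, θ (star (a * y)) (θ (a * y) ξ)⟫_ℂ - ((‖θ (a * y) ξ‖ ^ 2 : ℝ) : ℂ))‖ := by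
          congr 1; ring
      _ ≤ 2 * s ^ 2 + s ^ 2 := (norm_add_le _ _).trans (add_le_add h1 h2)
      _ = 3 * s ^ 2 := by ring
  rw [← Complex.ofReal_sub, Complex.norm_real, Real.norm_eq_abs] at h8
  have := (abs_le.1 h8).2
  linarith

/-- the key estimate -/
theorem N1_key (x0 : H) (hx0 : ‖x0‖ ≤ 1) (θ : A → (H' →L[ℂ] H')) (ξ : H') (hξ : ‖ξ‖ = 1) (s : ℝ)
    (hs0 : 0 ≤ s) (hs : s ≤ 1 / 1000) (hθ : ApproxHom (s ^ 2) θ)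
    (hnear : ∀ a, ‖a‖ ≤ 1 → ‖⟪x0, σ a x0⟫_ℂ - ⟪ξ, θ a ξ⟫_ℂ‖ ≤ s ^ 2) (z y : A)
    (hz : ‖z‖ ≤ 1) (hy : ‖y‖ ≤ 1)
    (hzy : ‖θ z (θ y ξ) - ⟪ξ, θ y ξ⟫_ℂ • ξ‖ ≤ s ^ 2) :
    ‖σ z (σ y x0) - ⟪ξ, θ y ξ⟫_ℂ • x0‖ ≤ 4 * s := by
  set c : ℂ := ⟪ξ, θ y ξ⟫_ℂ with hc
  set X : H := σ z (σ y x0) with hX
  have hc1 : ‖c‖ ≤ 1 := by
    calc ‖c‖ ≤ ‖ξ‖ * ‖θ y ξ‖ := norm_inner_le_norm _ _
      _ ≤ 1 * 1 := by
          rw [hξ]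
          refine mul_le_mul_of_nonneg_left ?_ zero_le_one
          rw [← hξ]; exact N1_le_one _ (hθ.norm_le _ hy) ξ
      _ = 1 := one_mul _
  have hX2 := N1_sq x0 θ ξ hξ s hθ hnear z y hz hy
  have hin := N1_inner x0 θ ξ hξ s hθ hnear z y hz hy
  have hn : ‖θ z (θ y ξ)‖ ≤ ‖c‖ + s ^ 2 := by
    have h1 : θ z (θ y ξ) = (θ z (θ y ξ) - c • ξ) + c • ξ := by abel
    calc ‖θ z (θ y ξ)‖ = ‖(θ z (θ y ξ) - c • ξ) + c • ξ‖ := by rw [← h1]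
      _ ≤ s ^ 2 + ‖c • ξ‖ := (norm_add_le _ _).trans (add_le_add_left hzy _)
      _ = ‖c‖ + s ^ 2 := by rw [norm_smul, hξ]; ring
  have hs2 : s ^ 2 ≤ 1 / 1000 := by nlinarith
  have hs4 : s ^ 2 * s ^ 2 ≤ s ^ 2 := by nlinarith [sq_nonneg s]
  have hX3 : ‖X‖ ^ 2 ≤ ‖c‖ ^ 2 + 8 * s ^ 2 := by
    have h1 : ‖θ z (θ y ξ)‖ ^ 2 ≤ (‖c‖ + s ^ 2) ^ 2 :=
      pow_le_pow_left₀ (norm_nonneg _) hn 2
    nlinarith [norm_nonneg c, sq_nonneg s]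
  have hin2 : ‖⟪x0, X⟫_ℂ - c‖ ≤ 3 * s ^ 2 := by
    have h1 : ‖⟪ξ, θ z (θ y ξ)⟫_ℂ - c‖ ≤ s ^ 2 := by
      have h2 : c = ⟪ξ, c • ξ⟫_ℂ := by
        rw [inner_smul_right, inner_self_eq_norm_sq_to_K, hξ]; simp
      conv_lhs => rw [h2]
      rw [← inner_sub_right]
      calc _ ≤ ‖ξ‖ * ‖θ z (θ y ξ) - c • ξ‖ := norm_inner_le_norm _ _
        _ ≤ 1 * s ^ 2 := by rw [hξ]; exact mul_le_mul_of_nonneg_left hzy zero_le_one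
        _ = s ^ 2 := one_mul _
    calc _ = ‖(⟪x0, X⟫_ℂ - ⟪ξ, θ z (θ y ξ)⟫_ℂ) + (⟪ξ, θ z (θ y ξ)⟫_ℂ - c)‖ := by
          congr 1; ring
      _ ≤ 2 * s ^ 2 + s ^ 2 := (norm_add_le _ _).trans (add_le_add hin h1)
      _ = 3 * s ^ 2 := by ring
  have hre : ‖c‖ ^ 2 - 3 * s ^ 2 ≤ (⟪X, c • x0⟫_ℂ).re := by
    have h1 : ⟪X, c • x0⟫_ℂ = c * (starRingEnd ℂ) ⟪x0, X⟫_ℂ := by
      rw [inner_smul_right, inner_conj_symm]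
    have h2 : c * (starRingEnd ℂ) ⟪x0, X⟫_ℂ =
        ((‖c‖ ^ 2 : ℝ) : ℂ) + c * (starRingEnd ℂ) (⟪x0, X⟫_ℂ - c) := by
      rw [map_sub, mul_sub, Complex.mul_conj]
      rw [Complex.normSq_eq_norm_sq]; ring
    rw [h1, h2, Complex.add_re, Complex.ofReal_re]
    have h3 : ‖c * (starRingEnd ℂ) (⟪x0, X⟫_ℂ - c)‖ ≤ 3 * s ^ 2 := by
      rw [norm_mul, RCLike.norm_conj]
      calc ‖c‖ * ‖⟪x0, X⟫_ℂ - c‖ ≤ 1 * (3 * s ^ 2) :=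
            mul_le_mul hc1 hin2 (norm_nonneg _) zero_le_one
        _ = 3 * s ^ 2 := one_mul _
    have h4 := (abs_le.1 ((Complex.abs_re_le_norm _).trans h3)).1
    linarith
  have hfin : ‖X - c • x0‖ ^ 2 ≤ (4 * s) ^ 2 := by
    have h1 : ‖X - c • x0‖ ^ 2 = ‖X‖ ^ 2 - 2 * (⟪X, c • x0⟫_ℂ).re + ‖c • x0‖ ^ 2 := by
      have := @norm_sub_sq ℂ H _ _ _ X (c • x0)
      simpa using this
    have h2 : ‖c • x0‖ ^ 2 ≤ ‖c‖ ^ 2 := by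
      rw [norm_smul]
      refine pow_le_pow_left₀ (by positivity) ?_ 2
      nlinarith [norm_nonneg c, norm_nonneg x0]
    rw [h1]
    nlinarith
  exact le_of_sq_le_sq hfin (by positivity)

theorem N1_half (h : H →L[ℂ] H) (u : H) (hu : 1 / 2 * ‖u‖ ^ 2 ≤ (⟪u, h u⟫_ℂ).re) :
    ‖u‖ ≤ 2 * ‖h u‖ := by
  have h1 : (⟪u, h u⟫_ℂ).re ≤ ‖u‖ * ‖h u‖ :=
    (Complex.re_le_norm _).trans (norm_inner_le_norm _ _)
  by_cases h0 : ‖u‖ = 0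
  · rw [h0]; positivity
  · have h2 : 0 < ‖u‖ := lt_of_le_of_ne (norm_nonneg _) (Ne.symm h0)
    have h3 : ‖u‖ * ‖u‖ ≤ ‖u‖ * (2 * ‖h u‖) := by nlinarith
    exact le_of_mul_le_mul_left h3 h2

theorem N1_spec (h e : H →L[ℂ] H) (he : IsStarProjection e) (hc : Commute e h)
    (h1 : ∀ v, 1 / 2 * ‖e v‖ ^ 2 ≤ (⟪e v, h (e v)⟫_ℂ).re)
    (h2 : ∀ v, e v = 0 → (⟪v, h v⟫_ℂ).re ≤ 1 / 2 * ‖v‖ ^ 2) (w : H) :
    ‖h w - e w‖ ≤ 2 * ‖h w - h (h w)‖ := by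
  have hcom : ∀ v, e (h v) = h (e v) := fun v => by
    have := congrArg (fun T : H →L[ℂ] H => T v) hc.eq
    simpa using this
  have hee : ∀ v, e (e v) = e v := fun v => by
    have := congrArg (fun T : H →L[ℂ] H => T v) he.isIdempotentElem.eq
    simpa using this
  have hsa : ∀ v w, ⟪e v, w⟫_ℂ = ⟪v, e w⟫_ℂ := fun v w => by
    rw [← ContinuousLinearMap.adjoint_inner_right, ← ContinuousLinearMap.star_eq_adjoint,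
      he.isSelfAdjoint.star_eq]
  have horth : ∀ u v, e u = u → e v = 0 → ⟪u, v⟫_ℂ = 0 := fun u v hu hv => by
    rw [← hu, hsa, hv, inner_zero_right]
  set u1 : H := e w - h (e w) with hu1
  set u2 : H := h (w - e w) with hu2
  have e1 : e u1 = u1 := by rw [hu1, map_sub, hcom, hee]
  have e2 : e u2 = 0 := by rw [hu2, hcom, map_sub, hee, sub_self, map_zero]
  have e3 : e (h u1) = h u1 := by rw [hcom, e1]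
  have e4 : e (u2 - h u2) = 0 := by rw [map_sub, hcom u2, e2, map_zero, sub_zero]
  have n1 : ‖u1‖ ≤ 2 * ‖h u1‖ := by
    apply N1_half
    have := h1 u1
    rwa [e1] at this
  have n2 : ‖u2‖ ≤ 2 * ‖u2 - h u2‖ := by
    have := N1_half (1 - h) u2 (by
      have h3 := h2 u2 e2
      have h4 : (1 - h) u2 = u2 - h u2 := rfl
      rw [h4, inner_sub_right, inner_self_eq_norm_sq_to_K]
      have h5 : ((((‖u2‖ : ℝ) : ℂ) ^ 2 - ⟪u2, h u2⟫_ℂ)).re = ‖u2‖ ^ 2 - (⟪u2, h u2⟫_ℂ).re := by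
        rw [Complex.sub_re, ← Complex.ofReal_pow, Complex.ofReal_re]
      have h6 : ((RCLike.ofReal ‖u2‖ : ℂ) ^ 2 - ⟪u2, h u2⟫_ℂ).re =
        ‖u2‖ ^ 2 - (⟪u2, h u2⟫_ℂ).re := h5
      rw [h6]
      linarith)
    exact this
  have d1 : h w - e w = u2 - u1 := by
    rw [hu1, hu2, map_sub]; abel
  have d2 : h w - h (h w) = h u1 + (u2 - h u2) := by
    rw [hu1, hu2, map_sub, map_sub, map_sub]; abel
  have p1 : ‖u2 - u1‖ ^ 2 = ‖u2‖ ^ 2 + ‖u1‖ ^ 2 := by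
    have h3 : ⟪u2, u1⟫_ℂ = 0 := by
      rw [← inner_conj_symm, horth u1 u2 e1 e2, map_zero]
    have := @norm_sub_sq ℂ H _ _ _ u2 u1
    rw [this, h3]; simp
  have p2 : ‖h u1 + (u2 - h u2)‖ ^ 2 = ‖h u1‖ ^ 2 + ‖u2 - h u2‖ ^ 2 := by
    have := @norm_add_sq ℂ H _ _ _ (h u1) (u2 - h u2)
    rw [this, horth _ _ e3 e4]; simp
  rw [d1, d2]
  have hfin : ‖u2 - u1‖ ^ 2 ≤ (2 * ‖h u1 + (u2 - h u2)‖) ^ 2 := by
    rw [p1, mul_pow, p2]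
    nlinarith [norm_nonneg u1, norm_nonneg u2, norm_nonneg (h u1), norm_nonneg (u2 - h u2)]
  exact le_of_sq_le_sq hfin (by positivity)

theorem near_proj (x0 : H) (hx0 : ‖x0‖ ≤ 1) (hdense : Dense (Set.range fun a => σ a x0))
    [PartialOrder A] [StarOrderedRing A]
    {H' : Type w} [NormedAddCommGroup H'] [InnerProductSpace ℂ H'] [CompleteSpace H']
    (θ : A → (H' →L[ℂ] H')) (ξ : H') (hξ : ‖ξ‖ = 1) (s : ℝ) (hs0 : 0 ≤ s) (hs : s ≤ 1 / 1000)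
    (hθ : ApproxHom (s ^ 2) θ)
    (hnear : ∀ a, ‖a‖ ≤ 1 → ‖⟪x0, σ a x0⟫_ℂ - ⟪ξ, θ a ξ⟫_ℂ‖ ≤ s ^ 2)
    (hdens : ∀ F : Finset H', ∃ z : A, 0 ≤ z ∧ ‖z‖ ≤ 1 ∧ ∀ v ∈ F, ‖v‖ ≤ 1 →
      ‖θ z v - ⟪ξ, v⟫_ℂ • ξ‖ ≤ s ^ 2) :
    1 - 2 * s ^ 2 ≤ ‖x0‖ ^ 2 ∧ ∃ e ∈ Cl σ, IsStarProjection e ∧ ‖e x0 - x0‖ ≤ 100 * s ∧
      ∀ x ∈ Cl σ, ‖e (x x0) - ⟪x0, x x0⟫_ℂ • x0‖ ≤ 100 * s := by
  classical
  choose zf hz0 hz1 hzF using hdens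
  let 𝒰 : Ultrafilter (Finset H') := Ultrafilter.of atTop
  have h𝒰 : (𝒰 : Filter (Finset H')) ≤ atTop := Ultrafilter.of_le _
  obtain ⟨h, hnorm, hwl, hcl⟩ := exists_wlim 𝒰 (fun F => σ (zf F)) 1
    (fun F => (N1_norm_le σ _).trans (hz1 F))
  have hmem : h ∈ Cl σ := Cl.wlim 𝒰 zf (fun F => (hz0 F).isSelfAdjoint) hz1 h hwl
  have hsa := Cl.isSelfAdjoint hmem
  have hpos : h.IsPositive := by
    rw [ContinuousLinearMap.isPositive_iff']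
    refine ⟨hsa, fun v => ?_⟩
    have h1 : Tendsto (fun F => (⟪v, σ (zf F) v⟫_ℂ).re) 𝒰 (𝓝 (⟪v, h v⟫_ℂ).re) :=
      (Complex.continuous_re.tendsto _).comp (hwl v v)
    have h2 : 0 ≤ (⟪v, h v⟫_ℂ).re :=
      ge_of_tendsto' h1 (fun F => N1_pos σ (zf F) (hz0 F) v)
    have h3 : ⟪h v, v⟫_ℂ = ⟪v, h v⟫_ℂ := by
      rw [← ContinuousLinearMap.adjoint_inner_right, ← ContinuousLinearMap.star_eq_adjoint,
        hsa.star_eq]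
    have h4 : (starRingEnd ℂ) ⟪h v, v⟫_ℂ = ⟪h v, v⟫_ℂ := by rw [inner_conj_symm, ← h3]
    rw [Complex.nonneg_iff]
    refine ⟨by rw [h3]; exact h2, ?_⟩
    exact (Complex.conj_eq_iff_im.1 h4).symm
  have hs2 : s ^ 2 ≤ s := by nlinarith
  have hsq : s ^ 2 ≤ 1 / 1000 := by linarith
  have hθξ : ∀ y, ‖y‖ ≤ 1 → ‖θ y ξ‖ ≤ 1 := fun y hy => by
    rw [← hξ]; exact N1_le_one _ (hθ.norm_le _ hy) ξ
  have hkey : ∀ y, ‖y‖ ≤ 1 → ‖h (σ y x0) - ⟪ξ, θ y ξ⟫_ℂ • x0‖ ≤ 4 * s := by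
    intro y hy
    apply hcl
    have h1 : ∀ᶠ F in (𝒰 : Filter (Finset H')), {θ y ξ} ≤ F := h𝒰 (eventually_ge_atTop _)
    filter_upwards [h1] with F hF
    have hmem : θ y ξ ∈ F := hF (Finset.mem_singleton_self _)
    exact N1_key x0 hx0 θ ξ hξ s hs0 hs hθ hnear (zf F) y (hz1 F) hy
      (hzF F _ hmem (hθξ y hy))
  have hkey2 : ∀ x ∈ Cl σ, ‖h (x x0) - ⟪x0, x x0⟫_ℂ • x0‖ ≤ 5 * s := by
    intro x hx
    refine le_of_forall_pos_le_add fun κ hκ => ?_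
    obtain ⟨y, -, hy1, hy2⟩ := hx {x0} (κ / 2) (by positivity)
    have hy3 := hy2 x0 (Finset.mem_singleton_self _)
    have t1 : ‖h (x x0 - σ y x0)‖ ≤ κ / 2 := by
      refine (N1_le_one h hnorm _).trans ?_
      rw [norm_sub_rev]; exact hy3
    have t2 := hkey y hy1
    have t3 : ‖(⟪ξ, θ y ξ⟫_ℂ - ⟪x0, σ y x0⟫_ℂ) • x0‖ ≤ s ^ 2 := by
      rw [norm_smul, norm_sub_rev]
      calc _ ≤ s ^ 2 * 1 := mul_le_mul (hnear y hy1) hx0 (norm_nonneg _) (sq_nonneg s)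
        _ = s ^ 2 := mul_one _
    have t4 : ‖(⟪x0, σ y x0⟫_ℂ - ⟪x0, x x0⟫_ℂ) • x0‖ ≤ κ / 2 := by
      rw [← inner_sub_right, norm_smul]
      calc _ ≤ (‖x0‖ * ‖σ y x0 - x x0‖) * ‖x0‖ :=
            mul_le_mul_of_nonneg_right (norm_inner_le_norm _ _) (norm_nonneg _)
        _ ≤ (1 * (κ / 2)) * 1 := by
            refine mul_le_mul (mul_le_mul hx0 hy3 (norm_nonneg _) zero_le_one) hx0
              (norm_nonneg _) (by positivity)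
        _ = κ / 2 := by ring
    have e1 : h (x x0) - ⟪x0, x x0⟫_ℂ • x0 = h (x x0 - σ y x0) +
        (h (σ y x0) - ⟪ξ, θ y ξ⟫_ℂ • x0) + (⟪ξ, θ y ξ⟫_ℂ - ⟪x0, σ y x0⟫_ℂ) • x0 +
        (⟪x0, σ y x0⟫_ℂ - ⟪x0, x x0⟫_ℂ) • x0 := by
      rw [map_sub, sub_smul, sub_smul]; abel
    rw [e1]
    calc _ ≤ ‖h (x x0 - σ y x0)‖ + ‖h (σ y x0) - ⟪ξ, θ y ξ⟫_ℂ • x0‖ +
          ‖(⟪ξ, θ y ξ⟫_ℂ - ⟪x0, σ y x0⟫_ℂ) • x0‖ + ‖(⟪x0, σ y x0⟫_ℂ - ⟪x0, x x0⟫_ℂ) • x0‖ :=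
          norm_add₄_le
      _ ≤ κ / 2 + 4 * s + s ^ 2 + κ / 2 := by gcongr
      _ ≤ 5 * s + κ := by linarith
  -- the element `z`
  set z := zf {ξ} with hzdef
  have hzξ := hzF {ξ} ξ (Finset.mem_singleton_self _) hξ.le
  rw [inner_self_eq_norm_sq_to_K, hξ] at hzξ
  have hcz : ‖⟪ξ, θ z ξ⟫_ℂ - 1‖ ≤ s ^ 2 := by
    have h2 : (1 : ℂ) = ⟪ξ, ξ⟫_ℂ := by
      rw [inner_self_eq_norm_sq_to_K, hξ]; simp
    rw [h2, ← inner_sub_right]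
    calc _ ≤ ‖ξ‖ * ‖θ z ξ - ξ‖ := norm_inner_le_norm _ _
      _ ≤ 1 * s ^ 2 := by
          rw [hξ]
          refine mul_le_mul_of_nonneg_left ?_ zero_le_one
          simpa using hzξ
      _ = s ^ 2 := one_mul _
  have hz1' : ‖z‖ ≤ 1 := hz1 _
  have hgz : ‖⟪x0, σ z x0⟫_ℂ - 1‖ ≤ 2 * s ^ 2 := by
    calc _ = ‖(⟪x0, σ z x0⟫_ℂ - ⟪ξ, θ z ξ⟫_ℂ) + (⟪ξ, θ z ξ⟫_ℂ - 1)‖ := by congr 1; ring
      _ ≤ s ^ 2 + s ^ 2 := (norm_add_le _ _).trans (add_le_add (hnear z hz1') hcz)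
      _ = 2 * s ^ 2 := by ring
  have hgre : 1 - 2 * s ^ 2 ≤ (⟪x0, σ z x0⟫_ℂ).re := by
    have := (abs_le.1 ((Complex.abs_re_le_norm _).trans hgz)).1
    rw [Complex.sub_re, Complex.one_re] at this
    linarith
  have hσz : ‖σ z x0‖ ≤ ‖x0‖ := N1_le_one _ ((N1_norm_le σ z).trans hz1') x0
  have hx0low : 1 - 2 * s ^ 2 ≤ ‖x0‖ ^ 2 := by
    have h1 : (⟪x0, σ z x0⟫_ℂ).re ≤ ‖x0‖ * ‖σ z x0‖ :=
      (Complex.re_le_norm _).trans (norm_inner_le_norm _ _)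
    nlinarith [norm_nonneg x0]
  have hzx : ‖x0 - σ z x0‖ ≤ 2 * s := by
    have h1 : ‖x0 - σ z x0‖ ^ 2 = ‖x0‖ ^ 2 - 2 * (⟪x0, σ z x0⟫_ℂ).re + ‖σ z x0‖ ^ 2 := by
      have := @norm_sub_sq ℂ H _ _ _ x0 (σ z x0)
      simpa using this
    have h2 : ‖x0 - σ z x0‖ ^ 2 ≤ (2 * s) ^ 2 := by
      rw [h1]
      nlinarith [norm_nonneg x0, norm_nonneg (σ z x0)]
    exact le_of_sq_le_sq h2 (by positivity)
  have hhx : ‖h x0 - x0‖ ≤ 7 * s := by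
    have t1 : ‖h (x0 - σ z x0)‖ ≤ 2 * s := (N1_le_one h hnorm _).trans hzx
    have t2 := hkey z hz1'
    have t3 : ‖(⟪ξ, θ z ξ⟫_ℂ - 1) • x0‖ ≤ s ^ 2 := by
      rw [norm_smul]
      calc _ ≤ s ^ 2 * 1 := mul_le_mul hcz hx0 (norm_nonneg _) (sq_nonneg s)
        _ = s ^ 2 := mul_one _
    have e1 : h x0 - x0 = h (x0 - σ z x0) + (h (σ z x0) - ⟪ξ, θ z ξ⟫_ℂ • x0) +
        (⟪ξ, θ z ξ⟫_ℂ - 1) • x0 := by
      rw [map_sub, sub_smul, one_smul]; abel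
    rw [e1]
    calc _ ≤ ‖h (x0 - σ z x0)‖ + ‖h (σ z x0) - ⟪ξ, θ z ξ⟫_ℂ • x0‖ +
          ‖(⟪ξ, θ z ξ⟫_ℂ - 1) • x0‖ := norm_add₃_le
      _ ≤ 2 * s + 4 * s + s ^ 2 := by gcongr
      _ ≤ 7 * s := by linarith
  obtain ⟨e, heCl, hestar, hecomm, he1, he2, -⟩ := Cl.spectral hmem hpos (1 / 2) (by norm_num)
    (by norm_num)
  refine ⟨hx0low, e, heCl, hestar, ?_, ?_⟩
  · have h1 := N1_spec h e hestar hecomm he1 he2 x0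
    have h2 : ‖h x0 - h (h x0)‖ ≤ 7 * s := by
      rw [← map_sub]
      refine (N1_le_one h hnorm _).trans ?_
      rw [norm_sub_rev]; exact hhx
    have e1 : e x0 - x0 = (h x0 - x0) - (h x0 - e x0) := by abel
    rw [e1]
    calc _ ≤ ‖h x0 - x0‖ + ‖h x0 - e x0‖ := norm_sub_le _ _
      _ ≤ 7 * s + 2 * (7 * s) := by linarith
      _ ≤ 100 * s := by linarith
  · intro x hx
    have h1 := N1_spec h e hestar hecomm he1 he2 (x x0)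
    have h2 := hkey2 x hx
    set g : ℂ := ⟪x0, x x0⟫_ℂ with hg
    have hg1 : ‖g‖ ≤ 1 := by
      calc ‖g‖ ≤ ‖x0‖ * ‖x x0‖ := norm_inner_le_norm _ _
        _ ≤ 1 * 1 := mul_le_mul hx0 ((N1_le_one x (Cl.norm_le hx) _).trans hx0)
            (norm_nonneg _) zero_le_one
        _ = 1 := one_mul _
    have h3 : ‖h (x x0) - h (h (x x0))‖ ≤ 17 * s := by
      have t1 : ‖g • (h x0 - x0)‖ ≤ 7 * s := by
        rw [norm_smul]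
        calc _ ≤ 1 * (7 * s) := mul_le_mul hg1 hhx (norm_nonneg _) zero_le_one
          _ = 7 * s := one_mul _
      have t2 : ‖h (h (x x0) - g • x0)‖ ≤ 5 * s := (N1_le_one h hnorm _).trans h2
      have e1 : h (x x0) - h (h (x x0)) = (h (x x0) - g • x0) - g • (h x0 - x0) -
          h (h (x x0) - g • x0) := by
        rw [map_sub, map_smul, smul_sub]; abel
      rw [e1]
      calc _ ≤ ‖(h (x x0) - g • x0) - g • (h x0 - x0)‖ + ‖h (h (x x0) - g • x0)‖ :=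
            norm_sub_le _ _
        _ ≤ (‖h (x x0) - g • x0‖ + ‖g • (h x0 - x0)‖) + ‖h (h (x x0) - g • x0)‖ := by
            gcongr; exact norm_sub_le _ _
        _ ≤ (5 * s + 7 * s) + 5 * s := by gcongr
        _ = 17 * s := by ring
    have e1 : e (x x0) - g • x0 = (h (x x0) - g • x0) - (h (x x0) - e (x x0)) := by abel
    rw [e1]
    calc _ ≤ ‖h (x x0) - g • x0‖ + ‖h (x x0) - e (x x0)‖ := norm_sub_le _ _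
      _ ≤ 5 * s + 2 * (17 * s) := by linarith
      _ ≤ 100 * s := by linarith

end N1

end Pool.Agent.helper32.CK
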