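import Pool.Agent.helper31.CK.N1
import Pool.Agent.helper91.CK.S0
import Pool.Agent.helper93.CK.N2
import Pool.Agent.helper93.CK.N3

/-! # CK project, module N4: from a near functional to an irreducible representation -/

namespace Pool.Agent.helper32.CK

open scoped InnerProductSpace ComplexOrder
open Filter Topology

universe u v w

set_option linter.unusedSectionVars false

theorem near_pure {A : Type u} [NonUnitalCStarAlgebra A] [PartialOrder A]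
    [StarOrderedRing A] (g : A →ₚ[ℂ] ℂ) (hg : ∀ a, ‖g a‖ ≤ ‖a‖) {H : Type v}
    [NormedAddCommGroup H] [InnerProductSpace ℂ H] [CompleteSpace H] (θ : A → (H →L[ℂ] H))
    (ξ : H) (hξ : ‖ξ‖ = 1) (s : ℝ) (hs0 : 0 ≤ s) (hs : s ≤ 1 / 1000)
    (hθ : ApproxHom (s ^ 2) θ)
    (hnear : ∀ a, ‖a‖ ≤ 1 → ‖g a - ⟪ξ, θ a ξ⟫_ℂ‖ ≤ s ^ 2)
    (hdens : ∀ F : Finset H, ∃ z : A, 0 ≤ z ∧ ‖z‖ ≤ 1 ∧ ∀ v ∈ F, ‖v‖ ≤ 1 →
      ‖θ z v - ⟪ξ, v⟫_ℂ • ξ‖ ≤ s ^ 2) :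
    ∃ (K : Type u) (_ : NormedAddCommGroup K) (_ : InnerProductSpace ℂ K) (_ : CompleteSpace K)
      (σ : A →⋆ₙₐ[ℂ] (K →L[ℂ] K)) (η : K), Irr σ ∧ ‖η‖ = 1 ∧
      ∀ a, ‖a‖ ≤ 1 → ‖⟪η, σ a η⟫_ℂ - ⟪ξ, θ a ξ⟫_ℂ‖ ≤ 1000 * s := by
  obtain ⟨G, i1, i2, i3, π, x0, hx0, hgx, hdense⟩ := gns_vec g hg
  have hnear' : ∀ a, ‖a‖ ≤ 1 → ‖⟪x0, π a x0⟫_ℂ - ⟪ξ, θ a ξ⟫_ℂ‖ ≤ s ^ 2 := fun a ha => by
    rw [hgx]; exact hnear a ha
  obtain ⟨hlow, e, heCl, hestar, hex0, hex⟩ :=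
    near_proj x0 hx0 hdense θ ξ hξ s hs0 hs hθ hnear' hdens
  have hs2 : s ^ 2 ≤ 1 / 1000 * s := by nlinarith
  have hn0 := norm_nonneg x0
  -- facts on star projections
  have hpr : ∀ r : G →L[ℂ] G, IsStarProjection r → ⟪x0, r x0⟫_ℂ = ((‖r x0‖ ^ 2 : ℝ) : ℂ) := by
    intro r hr
    have h1 : r (r x0) = r x0 := by
      have := congrArg (fun T : G →L[ℂ] G => T x0) hr.isIdempotentElem.eq
      simpa using this
    have h2 : ⟪r x0, r x0⟫_ℂ = ⟪x0, r x0⟫_ℂ := by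
      rw [← ContinuousLinearMap.adjoint_inner_right, ← ContinuousLinearMap.star_eq_adjoint,
        hr.isSelfAdjoint.star_eq, h1]
    rw [← h2, inner_self_eq_norm_sq_to_K]
    simp
  have hpr2 : ∀ r : G →L[ℂ] G, IsStarProjection r → ∀ t : ℝ,
      ‖r x0 - (t : ℂ) • x0‖ ^ 2 = ‖r x0‖ ^ 2 - 2 * (t * ‖r x0‖ ^ 2) + t ^ 2 * ‖x0‖ ^ 2 := by
    intro r hr t
    have h1 := @norm_sub_sq ℂ G _ _ _ (r x0) ((t : ℂ) • x0)
    rw [h1, inner_smul_right, ← inner_conj_symm, hpr r hr, norm_smul]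
    have h2 : RCLike.re ((t : ℂ) * (starRingEnd ℂ) ((‖r x0‖ ^ 2 : ℝ) : ℂ)) =
        t * ‖r x0‖ ^ 2 := by
      rw [Complex.conj_ofReal, ← Complex.ofReal_mul]
      rfl
    rw [h2, Complex.norm_real, mul_pow, Real.norm_eq_abs, sq_abs]
  -- the dichotomy, quantitatively
  have hquant : ∀ r ∈ Cl π, IsStarProjection r → e * r = r →
      ‖r x0‖ ^ 2 * (1 - ‖r x0‖ ^ 2) ≤ 10002 * s ^ 2 := by
    intro r hr hr1 her
    have h1 := hex r hr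
    have h2 : e (r x0) = r x0 := by
      have := congrArg (fun T : G →L[ℂ] G => T x0) her
      simpa using this
    rw [h2, hpr r hr1] at h1
    have h3 := hpr2 r hr1 (‖r x0‖ ^ 2)
    have h4 : ‖r x0 - ((‖r x0‖ ^ 2 : ℝ) : ℂ) • x0‖ ^ 2 ≤ (100 * s) ^ 2 :=
      pow_le_pow_left₀ (norm_nonneg _) h1 2
    rw [h3] at h4
    have h5 : ‖r x0‖ ^ 2 ≤ 1 := by
      have h6 : ‖r x0‖ ≤ 1 := (N1_le_one r (Cl.norm_le hr) x0).trans hx0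
      nlinarith [norm_nonneg (r x0)]
    set t : ℝ := ‖r x0‖ ^ 2 with ht
    have ht0 : 0 ≤ t := sq_nonneg _
    have h7 : t ^ 2 ≤ 1 := by nlinarith
    have h8 : t ^ 2 * (1 - 2 * s ^ 2) ≤ t ^ 2 * ‖x0‖ ^ 2 :=
      mul_le_mul_of_nonneg_left hlow (sq_nonneg t)
    nlinarith [sq_nonneg s]
  have htwo : ∀ r ∈ Cl π, IsStarProjection r → e * r = r → ‖r x0‖ ^ 2 ≤ 1 / 4 ∨
      3 / 4 ≤ ‖r x0‖ ^ 2 := by
    intro r hr hr1 her
    have h1 := hquant r hr hr1 her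
    by_contra hcon
    push Not at hcon
    nlinarith
  have he34 : 3 / 4 ≤ ‖e x0‖ ^ 2 := by
    have h1 : ‖x0‖ - 100 * s ≤ ‖e x0‖ := by
      have := norm_sub_norm_le x0 (e x0)
      rw [norm_sub_rev] at this
      linarith
    have h2 : 99 / 100 ≤ ‖x0‖ := by nlinarith
    have h3 : (88 : ℝ) / 100 ≤ ‖e x0‖ := by linarith
    nlinarith
  obtain ⟨p, hpCl, hp1, hep, hp34, hmin⟩ := exists_min_proj x0 hx0 e heCl hestar he34 htwo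
  have hpq := hquant p hpCl hp1 hep
  have hpn1 : ‖p x0‖ ≤ 1 := (N1_le_one p (Cl.norm_le hpCl) x0).trans hx0
  have hpn0 := norm_nonneg (p x0)
  have hpt : 1 - ‖p x0‖ ^ 2 ≤ 13400 * s ^ 2 := by
    nlinarith [sq_nonneg s]
  have hpne : ‖p x0‖ ≠ 0 := by
    intro h0
    rw [h0] at hp34
    norm_num at hp34
  have hpp : p (p x0) = p x0 := by
    have := congrArg (fun T : G →L[ℂ] G => T x0) hp1.isIdempotentElem.eq
    simpa using this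
  have hd1 : ‖p x0 - x0‖ ≤ 116 * s := by
    have h1 := hpr2 p hp1 1
    rw [Complex.ofReal_one, one_smul] at h1
    have h2 : ‖p x0 - x0‖ ^ 2 ≤ (116 * s) ^ 2 := by
      rw [h1]
      nlinarith
    exact le_of_sq_le_sq h2 (by positivity)
  set η : G := ((‖p x0‖⁻¹ : ℝ) : ℂ) • p x0 with hη
  have hηn : ‖η‖ = 1 := by
    rw [hη, norm_smul, Complex.norm_real, norm_inv, norm_norm, inv_mul_cancel₀ hpne]
  have hpη : p η = η := by rw [hη, map_smul, hpp]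
  have hd2 : ‖η - p x0‖ ≤ 14 * s := by
    have h1 : η - p x0 = (((‖p x0‖⁻¹ - 1 : ℝ)) : ℂ) • p x0 := by
      rw [hη, Complex.ofReal_sub, sub_smul, Complex.ofReal_one, one_smul]
    rw [h1, norm_smul, Complex.norm_real, Real.norm_eq_abs]
    have h2 : |‖p x0‖⁻¹ - 1| * ‖p x0‖ = |1 - ‖p x0‖| := by
      rw [← abs_of_nonneg hpn0, ← abs_mul, abs_of_nonneg hpn0, sub_mul, inv_mul_cancel₀ hpne,
        one_mul]
    rw [h2, abs_of_nonneg (by linarith)]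
    nlinarith
  have hd3 : ‖η - x0‖ ≤ 130 * s := by
    have e1 : η - x0 = (η - p x0) + (p x0 - x0) := by abel
    rw [e1]
    exact (norm_add_le _ _).trans (by linarith)
  obtain ⟨K, j1, j2, j3, ρ, η', hIrr, hη'n, hη'⟩ := irr_of_min_proj p hpCl hp1 hmin η hηn hpη
  refine ⟨K, j1, j2, j3, ρ, η', hIrr, hη'n, fun a ha => ?_⟩
  rw [hη' a]
  have hπa : ‖π a‖ ≤ 1 := (N1_norm_le π a).trans ha
  have t1 : ‖⟪η - x0, π a η⟫_ℂ‖ ≤ 130 * s := by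
    calc _ ≤ ‖η - x0‖ * ‖π a η‖ := norm_inner_le_norm _ _
      _ ≤ 130 * s * 1 := by
          refine mul_le_mul hd3 ?_ (norm_nonneg _) (by positivity)
          rw [← hηn]; exact N1_le_one _ hπa η
      _ = 130 * s := mul_one _
  have t2 : ‖⟪x0, π a (η - x0)⟫_ℂ‖ ≤ 130 * s := by
    calc _ ≤ ‖x0‖ * ‖π a (η - x0)‖ := norm_inner_le_norm _ _
      _ ≤ 1 * (130 * s) := by
          refine mul_le_mul hx0 ((N1_le_one _ hπa _).trans hd3) (norm_nonneg _) zero_le_one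
      _ = 130 * s := one_mul _
  have e1 : ⟪η, π a η⟫_ℂ - ⟪ξ, θ a ξ⟫_ℂ = ⟪η - x0, π a η⟫_ℂ + ⟪x0, π a (η - x0)⟫_ℂ +
      (⟪x0, π a x0⟫_ℂ - ⟪ξ, θ a ξ⟫_ℂ) := by
    rw [inner_sub_left, map_sub, inner_sub_right]; ring
  rw [e1]
  calc _ ≤ ‖⟪η - x0, π a η⟫_ℂ‖ + ‖⟪x0, π a (η - x0)⟫_ℂ‖ +
        ‖⟪x0, π a x0⟫_ℂ - ⟪ξ, θ a ξ⟫_ℂ‖ := norm_add₃_le
    _ ≤ 130 * s + 130 * s + s ^ 2 := by
        have := hnear' a ha
        gcongr
    _ ≤ 1000 * s := by linarith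

end Pool.Agent.helper32.CK
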